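import Pool.Agent.N569.FB.Defs

/-!
# FB3 (helper143): expansion of the normalised brackets in the numbers of full twists
-/

set_option autoImplicit false

namespace Pool.Agent.N143.FB

open Pool.Agent.H891R2.Jones Pool.Agent.W639.RB Pool.Agent.TH561 Pool.Agent.N569.TW Pool.Agent.N569.VT
  Pool.Agent.N569.FB Pool.Agent.H297.FT Finset LaurentPolynomial

variable {m k : ℕ}

/-! ### exponents -/

theorem ex_mono {p : ℤ[T;T⁻¹]} {b c : ℤ} (h : Ex p b) (hbc : b ≤ c) : Ex p c :=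
  fun n hn => (h n hn).trans hbc

theorem ex_zero (b : ℤ) : Ex 0 b := fun n hn => absurd (by simp) hn

theorem ex_add {p q : ℤ[T;T⁻¹]} {b : ℤ} (hp : Ex p b) (hq : Ex q b) : Ex (p + q) b := by
  intro n hn
  rw [AddMonoidAlgebra.coeff_add, Finsupp.add_apply] at hn
  by_cases h : p.coeff n = 0
  · rw [h, zero_add] at hn
    exact hq n hn
  · exact hp n h

theorem ex_mul {p q : ℤ[T;T⁻¹]} {b c : ℤ} (hp : Ex p b) (hq : Ex q c) : Ex (p * q) (b + c) := by
  classical
  intro n hn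
  have h := AddMonoidAlgebra.support_coeff_mul_subset p q (Finsupp.mem_support_iff.2 hn)
  rw [Finset.mem_add] at h
  obtain ⟨i, hi, j, hj, rfl⟩ := h
  have h1 := hp i (Finsupp.mem_support_iff.1 hi)
  have h2 := hq j (Finsupp.mem_support_iff.1 hj)
  exact (abs_add_le i j).trans (add_le_add h1 h2)

theorem ex_T {n b : ℤ} (h : |n| ≤ b) : Ex (T n) b := by
  intro j hj
  rw [T_apply] at hj
  by_cases h' : j = n
  · rw [h']; exact h
  · exact absurd (by rw [if_neg (by omega)]) hj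

theorem ex_one {b : ℤ} (hb : 0 ≤ b) : Ex 1 b := by
  rw [← T_zero]
  exact ex_T (by simpa using hb)

theorem ex_neg {p : ℤ[T;T⁻¹]} {b : ℤ} (hp : Ex p b) : Ex (-p) b := by
  intro n hn
  refine hp n fun h => hn ?_
  rw [AddMonoidAlgebra.coeff_neg, Finsupp.neg_apply, h, neg_zero]

theorem ex_sub {p q : ℤ[T;T⁻¹]} {b : ℤ} (hp : Ex p b) (hq : Ex q b) : Ex (p - q) b := by
  rw [sub_eq_add_neg]
  exact ex_add hp (ex_neg hq)

theorem ex_sum {ι : Type*} (s : Finset ι) (f : ι → ℤ[T;T⁻¹]) (b : ℤ) (h : ∀ i ∈ s, Ex (f i) b) :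
    Ex (∑ i ∈ s, f i) b :=
  Finset.sum_induction f (fun p => Ex p b) (fun _ _ => ex_add) (ex_zero b) h

theorem ex_prod {ι : Type*} (s : Finset ι) (f : ι → ℤ[T;T⁻¹]) (b : ι → ℤ)
    (h : ∀ i ∈ s, Ex (f i) (b i)) : Ex (∏ i ∈ s, f i) (∑ i ∈ s, b i) := by
  classical
  induction s using Finset.induction_on with
  | empty =>
    rw [Finset.prod_empty, Finset.sum_empty]
    exact ex_one le_rfl
  | insert a s ha ih =>
    rw [Finset.prod_insert ha, Finset.sum_insert ha]
    exact ex_mul (h a (Finset.mem_insert_self a s)) (ih fun i hi => h i (Finset.mem_insert_of_mem hi))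

theorem ex_poly {ι : Type*} (s : Finset ι) (w : ι → ℤ) (M : ℤ) (hM : 0 ≤ M)
    (h : ∀ i ∈ s, |w i| ≤ M) : ∀ i : ℕ,
    Ex ((∏ x ∈ s, (Polynomial.X - Polynomial.C (T (w x) : ℤ[T;T⁻¹]))).coeff i) (s.card * M) := by
  classical
  induction s using Finset.induction_on with
  | empty =>
    intro i
    rw [Finset.prod_empty, Polynomial.coeff_one]
    split_ifs
    · exact ex_one (by simp)
    · exact ex_zero _
  | insert a s ha ih =>
    intro i
    have ih' := ih fun i hi => h i (Finset.mem_insert_of_mem hi)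
    have hc : (((insert a s).card : ℕ) : ℤ) * M = M + s.card * M := by
      rw [Finset.card_insert_of_notMem ha]
      push_cast
      ring
    rw [Finset.prod_insert ha, hc, sub_mul, Polynomial.coeff_sub, Polynomial.coeff_C_mul]
    refine ex_sub ?_ (ex_mul (ex_T (h a (Finset.mem_insert_self a s))) (ih' i))
    cases i with
    | zero =>
      rw [Polynomial.coeff_X_mul_zero]
      exact ex_zero _
    | succ i =>
      rw [Polynomial.coeff_X_mul]
      exact ex_mono (ih' i) (by linarith)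

/-! ### the weights -/

/-- the weights -/
def wE (O : Outer m) (B : Boxes m k) (e : Fin k) (s : ℕ) : ℤ :=
  ((B.size e - 2 * s : ℕ) : ℤ) * ((B.size e - 2 * s : ℕ) + 2) - 3 * (lk O (B.off e) (B.size e)) ^ 2

theorem wt_wE (O : Outer m) (B : Boxes m k) (r : Ind B) (a : Fin k → ℤ) :
    wt O B (some r) a = ∑ e, wE O B e (r e) * a e := rfl

theorem abs_lk_le (O : Outer m) (off n : ℕ) : |lk O off n| ≤ n := by
  unfold lk
  refine (Finset.abs_sum_le_sum_abs _ _).trans ?_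
  have h1 : ∀ j : Fin m, |(if off ≤ (j : ℕ) ∧ (j : ℕ) < off + n then (if O.up j then (1 : ℤ) else -1) else 0)| ≤
      if off ≤ (j : ℕ) ∧ (j : ℕ) < off + n then (1 : ℤ) else 0 := by
    intro j
    split_ifs <;> simp
  refine (Finset.sum_le_sum fun j _ => h1 j).trans ?_
  rw [← Finset.sum_filter, Finset.sum_const, nsmul_eq_mul, mul_one]
  have h2 : ((Finset.univ : Finset (Fin m)).filter
      fun j : Fin m => off ≤ (j : ℕ) ∧ (j : ℕ) < off + n).card ≤ (Finset.range n).card := by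
    refine Finset.card_le_card_of_injOn (fun j : Fin m => (j : ℕ) - off) ?_ ?_
    · intro j hj
      have hj' := (Finset.mem_filter.1 (Finset.mem_coe.1 hj)).2
      refine Finset.mem_coe.2 (Finset.mem_range.2 ?_)
      show (j : ℕ) - off < n
      omega
    · intro j hj j' hj' hjj
      have h3 := (Finset.mem_filter.1 (Finset.mem_coe.1 hj)).2
      have h4 := (Finset.mem_filter.1 (Finset.mem_coe.1 hj')).2
      have h5 : (j : ℕ) - off = (j' : ℕ) - off := hjj
      exact Fin.ext (by omega)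
  rw [Finset.card_range] at h2
  exact_mod_cast h2

theorem abs_wE_le (O : Outer m) (B : Boxes m k) (e : Fin k) (s : ℕ) : |wE O B e s| ≤ 3 * (m : ℤ) ^ 2 := by
  have h1 := abs_lk_le O (B.off e) (B.size e)
  have h2 : ((B.size e : ℕ) : ℤ) ≤ m := by
    have := B.le e
    exact_mod_cast (by omega : B.size e ≤ m)
  have h3 : (((B.size e - 2 * s : ℕ)) : ℤ) ≤ B.size e := by
    exact_mod_cast Nat.sub_le _ _
  have h4 : (0 : ℤ) ≤ ((B.size e - 2 * s : ℕ) : ℤ) := Int.natCast_nonneg _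
  unfold wE
  obtain ⟨u, hu⟩ : ∃ u : ℤ, u = ((B.size e - 2 * s : ℕ) : ℤ) := ⟨_, rfl⟩
  obtain ⟨L, hL⟩ : ∃ L : ℤ, L = lk O (B.off e) (B.size e) := ⟨_, rfl⟩
  rw [← hu, ← hL]
  rw [← hu] at h3 h4
  rw [← hL] at h1
  have hu1 : u ≤ m := h3.trans h2
  have hL1 : |L| ≤ m := h1.trans h2
  have hL2 : L ^ 2 ≤ (m : ℤ) ^ 2 := by
    rw [← sq_abs L]
    exact pow_le_pow_left₀ (abs_nonneg _) hL1 2
  have hu2 : u * (u + 2) ≤ 3 * (m : ℤ) ^ 2 := by
    rcases eq_or_lt_of_le h4 with h | h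
    · rw [← h]
      have : (0 : ℤ) ≤ (m : ℤ) ^ 2 := sq_nonneg _
      linarith
    · have : u ≤ u ^ 2 := by nlinarith
      have h6 : u ^ 2 ≤ (m : ℤ) ^ 2 := pow_le_pow_left₀ h4 hu1 2
      nlinarith
  have hu3 : 0 ≤ u * (u + 2) := by positivity
  have hL3 : 0 ≤ L ^ 2 := sq_nonneg L
  rw [abs_le]
  constructor <;> linarith

theorem wE_inj (O : Outer m) (B : Boxes m k) (e : Fin k) {s s' : ℕ} (hs : s < B.size e / 2 + 1)
    (hs' : s' < B.size e / 2 + 1) (h : wE O B e s = wE O B e s') : s = s' := by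
  unfold wE at h
  have h3 : (((B.size e - 2 * s : ℕ) : ℤ) + 1) ^ 2 = (((B.size e - 2 * s' : ℕ) : ℤ) + 1) ^ 2 := by
    linarith
  have h4 : ((B.size e - 2 * s : ℕ) : ℤ) + 1 = ((B.size e - 2 * s' : ℕ) : ℤ) + 1 := by
    rwa [sq_eq_sq₀ (by positivity) (by positivity)] at h3
  omega

theorem T_inj {a b : ℤ} (h : (T a : ℤ[T;T⁻¹]) = T b) : a = b := by
  by_contra hab
  have h1 : (T a : ℤ[T;T⁻¹]).coeff a = 1 := by rw [T_apply, if_pos rfl]
  have h2 : (T b : ℤ[T;T⁻¹]).coeff a = 0 := by rw [T_apply, if_neg (by omega)]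
  rw [h, h2] at h1
  exact zero_ne_one h1

/-- the value at the point number `N` -/
theorem ev_wE (O : Outer m) (B : Boxes m k) (e : Fin k) (s : Fin (B.size e / 2 + 1)) (N : ℕ) (hN : 3 ≤ N) :
    ev N hN (T (wE O B e s)) = (xr N : ℂ) ^ kp O B e s := by
  obtain ⟨t, ht, ht'⟩ := kap_spec (lk_parity O (B.le e)) s.2
  have h1 : wE O B e s = 4 * t := ht
  have h2 : kp O B e s = 2 * t := ht'
  rw [h1, h2, ev_T, Ar_zpow_four N hN]

/-! ### the polynomials -/

/-- the Lagrange polynomials without denominators -/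
noncomputable def PL (O : Outer m) (B : Boxes m k) (e : Fin k) (s : Fin (B.size e / 2 + 1)) :
    Polynomial ℤ[T;T⁻¹] :=
  ∏ x ∈ univ.erase s, (Polynomial.X - Polynomial.C (T (wE O B e x) : ℤ[T;T⁻¹]))

/-- the denominators -/
noncomputable def DD (O : Outer m) (B : Boxes m k) (r : Ind B) : ℤ[T;T⁻¹] :=
  ∏ e, ∏ x ∈ univ.erase (r e), (T (wE O B e (r e)) - T (wE O B e x))

/-- the combination of the values -/
noncomputable def LL (O : Outer m) (B : Boxes m k) (r : Ind B) : ℤ[T;T⁻¹] :=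
  ∑ j : Ind B, (∏ e, (PL O B e (r e)).coeff (j e)) * (family O B (fun e => ((j e : ℕ) : ℤ))).fPoly

theorem eq_of_ev' (f g : ℤ[T;T⁻¹]) (h : ∀ N (hN : 3 ≤ N), ev N hN f = ev N hN g) : f = g := by
  have h1 : f - g + 1 = 1 := eq_one_of_ev _ (fun N hN => by
    rw [map_add, map_sub, h N hN, sub_self, map_one, zero_add])
  have h2 : f - g = 0 := by simpa using h1
  exact sub_eq_zero.1 h2

theorem PL_natDegree (O : Outer m) (B : Boxes m k) (e : Fin k) (s : Fin (B.size e / 2 + 1)) :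
    (PL O B e s).natDegree < B.size e / 2 + 1 := by
  have h1 := Polynomial.natDegree_prod_le (univ.erase s)
    (fun x => (Polynomial.X - Polynomial.C (T (wE O B e x) : ℤ[T;T⁻¹])))
  have h2 : ∑ x ∈ univ.erase s, (Polynomial.X - Polynomial.C (T (wE O B e x) : ℤ[T;T⁻¹])).natDegree ≤
      B.size e / 2 := by
    rw [Finset.sum_congr rfl fun (x : Fin (B.size e / 2 + 1)) _ =>
        Polynomial.natDegree_X_sub_C (T (wE O B e (x : ℕ)) : ℤ[T;T⁻¹]),
      Finset.sum_const, smul_eq_mul, mul_one, Finset.card_erase_of_mem (mem_univ s), Finset.card_univ,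
      Fintype.card_fin]
    omega
  exact Nat.lt_succ_of_le (h1.trans h2)

theorem PL_eval (O : Outer m) (B : Boxes m k) (e : Fin k) (s : Fin (B.size e / 2 + 1)) (N : ℕ) (hN : 3 ≤ N)
    (z : ℂ) : ∑ i : Fin (B.size e / 2 + 1), ev N hN ((PL O B e s).coeff i) * z ^ (i : ℕ) =
      ∏ x ∈ univ.erase s, (z - ev N hN (T (wE O B e x))) := by
  have h1 := Polynomial.eval₂_eq_sum_range' (ev N hN) (PL_natDegree O B e s) z
  rw [Finset.sum_range] at h1
  rw [← h1]
  unfold PL
  rw [Polynomial.eval₂_finsetProd]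
  refine Finset.prod_congr rfl fun x _ => ?_
  rw [Polynomial.eval₂_sub, Polynomial.eval₂_X, Polynomial.eval₂_C]

theorem formula' (hm : 0 < m) (O : Outer m) (B : Boxes m k) (N : ℕ) (hN : 3 ≤ N) :
    ∃ C : Ind B → ℂ, ∀ a : Fin k → ℤ, ev N hN (family O B a).fPoly =
      ∑ r : Ind B, C r * ∏ e, (ev N hN (T (wE O B e (r e)))) ^ a e := by
  obtain ⟨C, hC⟩ := formula hm O B N hN
  refine ⟨C, fun a => ?_⟩
  rw [hC]
  have hx0 : (xr N : ℂ) ≠ 0 := by
    rw [Complex.ofReal_ne_zero]; linarith [xr_gt N hN]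
  refine Finset.sum_congr rfl fun r _ => ?_
  rw [zpow_sum _ hx0]
  congr 1
  refine Finset.prod_congr rfl fun e _ => ?_
  rw [ev_wE, ← zpow_mul]

theorem ev_wt (O : Outer m) (B : Boxes m k) (N : ℕ) (hN : 3 ≤ N) (r : Ind B) (a : Fin k → ℤ) :
    ev N hN (T (wt O B (some r) a)) = ∏ e, (ev N hN (T (wE O B e (r e)))) ^ a e := by
  rw [wt_wE, ev_T, zpow_sum _ (Ar_ne N hN)]
  refine Finset.prod_congr rfl fun e _ => ?_
  rw [ev_T, ← zpow_mul]

theorem ev_LL (O : Outer m) (B : Boxes m k) (N : ℕ) (hN : 3 ≤ N) (C : Ind B → ℂ)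
    (hC : ∀ a : Fin k → ℤ, ev N hN (family O B a).fPoly =
      ∑ r : Ind B, C r * ∏ e, (ev N hN (T (wE O B e (r e)))) ^ a e) (r : Ind B) :
    ev N hN (LL O B r) = C r * ev N hN (DD O B r) := by
  classical
  have h1 : ev N hN (LL O B r) = ∑ r1 : Ind B, C r1 *
      ∏ e, ∏ x ∈ univ.erase (r e), (ev N hN (T (wE O B e (r1 e))) - ev N hN (T (wE O B e x))) := by
    unfold LL
    rw [map_sum]
    have h2 : ∀ j : Ind B, ev N hN ((∏ e, (PL O B e (r e)).coeff (j e)) *
        (family O B (fun e => ((j e : ℕ) : ℤ))).fPoly) =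
        ∑ r1 : Ind B, C r1 * ∏ e, (ev N hN ((PL O B e (r e)).coeff (j e)) *
          (ev N hN (T (wE O B e (r1 e)))) ^ (j e : ℕ)) := by
      intro j
      rw [map_mul, map_prod, hC, Finset.mul_sum]
      refine Finset.sum_congr rfl fun r1 _ => ?_
      rw [Finset.prod_mul_distrib]
      simp only [zpow_natCast]
      ring
    rw [Finset.sum_congr rfl fun j _ => h2 j, Finset.sum_comm]
    refine Finset.sum_congr rfl fun r1 _ => ?_
    rw [← Finset.mul_sum]
    congr 1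
    have h3 := Finset.prod_univ_sum (fun e : Fin k => (univ : Finset (Fin (B.size e / 2 + 1))))
      (fun e i => ev N hN ((PL O B e (r e)).coeff i) * (ev N hN (T (wE O B e (r1 e)))) ^ (i : ℕ))
    rw [Fintype.piFinset_univ] at h3
    rw [← h3]
    refine Finset.prod_congr rfl fun e _ => ?_
    exact PL_eval O B e (r e) N hN _
  rw [h1, Finset.sum_eq_single r]
  · unfold DD
    rw [map_prod]
    congr 1
    refine Finset.prod_congr rfl fun e _ => ?_
    rw [map_prod]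
    refine Finset.prod_congr rfl fun x _ => ?_
    rw [map_sub]
  · intro r1 _ hr1
    obtain ⟨e, he⟩ := Function.ne_iff.1 hr1
    rw [Finset.prod_eq_zero (mem_univ e), mul_zero]
    exact Finset.prod_eq_zero (Finset.mem_erase.2 ⟨he, mem_univ _⟩) (sub_self _)
  · intro h
    exact absurd (mem_univ r) h

theorem DD_ne (O : Outer m) (B : Boxes m k) (r : Ind B) : DD O B r ≠ 0 := by
  unfold DD
  rw [Finset.prod_ne_zero_iff]
  intro e _
  rw [Finset.prod_ne_zero_iff]
  intro x hx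
  rw [sub_ne_zero]
  intro h
  exact (Finset.mem_erase.1 hx).1 (Fin.ext (wE_inj O B e x.2 (r e).2 (T_inj h).symm))

/-- the bound for the exponents -/
theorem bound_aux (B : Boxes m k) :
    ∑ e : Fin k, ((B.size e / 2 : ℕ) : ℤ) * (3 * (m : ℤ) ^ 2) ≤ 3 * k * (m : ℤ) ^ 3 := by
  have h : ∀ e : Fin k, ((B.size e / 2 : ℕ) : ℤ) * (3 * (m : ℤ) ^ 2) ≤ 3 * (m : ℤ) ^ 3 := by
    intro e
    have h1 : ((B.size e / 2 : ℕ) : ℤ) ≤ m := by
      have := B.le e
      exact_mod_cast (by omega : B.size e / 2 ≤ m)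
    have h2 : (0 : ℤ) ≤ 3 * (m : ℤ) ^ 2 := by positivity
    have h3 := mul_le_mul_of_nonneg_right h1 h2
    linarith
  refine (Finset.sum_le_sum fun e _ => h e).trans (le_of_eq ?_)
  rw [Finset.sum_const, Finset.card_univ, Fintype.card_fin, nsmul_eq_mul]
  ring

theorem DD_ex (O : Outer m) (B : Boxes m k) (r : Ind B) : Ex (DD O B r) (3 * k * (m : ℤ) ^ 3) := by
  refine ex_mono ?_ (bound_aux B)
  unfold DD
  refine ex_prod _ _ _ fun e _ => ?_
  have h1 := ex_prod (univ.erase (r e)) (fun x => (T (wE O B e (r e)) - T (wE O B e x) : ℤ[T;T⁻¹]))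
    (fun _ => 3 * (m : ℤ) ^ 2) (fun x _ => ex_sub (ex_T (abs_wE_le O B e _)) (ex_T (abs_wE_le O B e _)))
  rw [Finset.sum_const, Finset.card_erase_of_mem (mem_univ _), Finset.card_univ, Fintype.card_fin,
    Nat.add_sub_cancel, nsmul_eq_mul] at h1
  exact h1

theorem LL_ex (O : Outer m) (B : Boxes m k) (b : ℤ)
    (hb : ∀ j : Fin k → ℕ, (∀ e, j e ≤ B.size e / 2) → Ex (family O B (fun e => (j e : ℤ))).fPoly b)
    (r : Ind B) : Ex (LL O B r) (3 * k * (m : ℤ) ^ 3 + b) := by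
  unfold LL
  refine ex_sum _ _ _ fun j _ => ex_mul ?_ (hb (fun e => (j e : ℕ)) fun e => Nat.le_of_lt_succ (j e).2)
  refine ex_mono (ex_prod _ _ _ fun e _ => ?_) (bound_aux B)
  have h1 := ex_poly (univ.erase (r e)) (fun x : Fin (B.size e / 2 + 1) => wE O B e x) (3 * (m : ℤ) ^ 2)
    (by positivity) (fun x _ => abs_wE_le O B e _) (j e)
  rw [Finset.card_erase_of_mem (mem_univ _), Finset.card_univ, Fintype.card_fin,
    Nat.add_sub_cancel] at h1
  exact h1

/-- FB3 -/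
theorem expansion (hm : 0 < m) (O : Outer m) (B : Boxes m k) (b : ℤ)
    (hb : ∀ j : Fin k → ℕ, (∀ e, j e ≤ B.size e / 2) → Ex (family O B (fun e => (j e : ℤ))).fPoly b) :
    ∃ (Q : ℤ[T;T⁻¹]) (G : Ind B → ℤ[T;T⁻¹]), Q ≠ 0 ∧
      Ex Q (Fintype.card (Ind B) * (3 * k * m ^ 3)) ∧
      (∀ r, Ex (G r) (b + Fintype.card (Ind B) * (3 * k * m ^ 3))) ∧
      ∀ a : Fin k → ℤ, Q * (family O B a).fPoly = ∑ r, T (wt O B (some r) a) * G r := by
  classical
  refine ⟨∏ r, DD O B r, fun r => (∏ r1 ∈ univ.erase r, DD O B r1) * LL O B r,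
    Finset.prod_ne_zero_iff.2 fun r _ => DD_ne O B r, ?_, fun r => ?_, fun a => ?_⟩
  · have h := ex_prod univ (DD O B) (fun _ => 3 * k * (m : ℤ) ^ 3) fun r _ => DD_ex O B r
    rw [Finset.sum_const, Finset.card_univ, nsmul_eq_mul] at h
    exact h
  · have h := ex_mul (ex_prod (univ.erase r) (DD O B) (fun _ => 3 * k * (m : ℤ) ^ 3)
      fun r _ => DD_ex O B r) (LL_ex O B b hb r)
    rw [Finset.sum_const, Finset.card_erase_of_mem (mem_univ _), Finset.card_univ, nsmul_eq_mul,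
      Nat.cast_sub Fintype.card_pos] at h
    refine ex_mono h (le_of_eq ?_)
    push_cast
    ring
  · apply eq_of_ev'
    intro N hN
    obtain ⟨C, hC⟩ := formula' hm O B N hN
    rw [map_mul, map_prod, hC, map_sum, Finset.mul_sum]
    refine Finset.sum_congr rfl fun r _ => ?_
    rw [map_mul, map_mul, map_prod, ev_LL O B N hN C hC r, ev_wt, ← Finset.mul_prod_erase univ _ (mem_univ r)]
    ring

end Pool.Agent.N143.FB
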